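import Mathlib
set_option autoImplicit false

namespace Pool.Agent.R322.PB

/-- elementary abelian case -/
theorem elem {G : Type*} [AddCommGroup G] [Finite G] (n : ℕ) (hcard : Nat.card G = 2 ^ n)
    (h2 : ∀ g : G, 2 • g = 0) : Nonempty (G ≃+ (Fin n → ZMod 2)) := by
  letI : Module (ZMod 2) G := AddCommGroup.zmodModule h2
  haveI : Fact (Nat.Prime 2) := ⟨Nat.prime_two⟩
  haveI : Module.Finite (ZMod 2) G := Module.Finite.of_finite
  have h1 : Nat.card G = Nat.card (ZMod 2) ^ Module.finrank (ZMod 2) G :=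
    Module.natCard_eq_pow_finrank (K := ZMod 2) (V := G)
  have h3 : Module.finrank (ZMod 2) G = n := by
    rw [hcard, Nat.card_zmod] at h1
    exact (Nat.pow_right_injective le_rfl h1).symm
  have h4 : Module.finrank (ZMod 2) (Fin n → ZMod 2) = n := by simp
  exact ⟨(LinearEquiv.ofFinrankEq G (Fin n → ZMod 2) (h3.trans h4.symm)).toAddEquiv⟩

/-- the case of one cyclic factor of order four -/
theorem four {G : Type*} [AddCommGroup G] [Finite G] (n : ℕ) (hcard : Nat.card G = 2 ^ (n + 2))
    (b a : G) (hb0 : b ≠ 0) (hb2 : 2 • b = 0) (ha : 2 • a = b)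
    (h2 : ∀ g : G, 2 • g = 0 ∨ 2 • g = b) : Nonempty (G ≃+ (Fin n → ZMod 2) × ZMod 4) := by
  -- doubling map
  let D : G →+ G := nsmulAddMonoidHom 2
  let V : AddSubgroup G := D.ker
  have hV : ∀ g : G, g ∈ V ↔ 2 • g = 0 := fun g => AddMonoidHom.mem_ker
  letI : Module (ZMod 2) V := AddCommGroup.zmodModule (fun v => by
    apply Subtype.ext
    simpa using (hV v.1).1 v.2)
  haveI : Fact (Nat.Prime 2) := ⟨Nat.prime_two⟩
  -- cardinality of V
  have hrange : Nat.card D.range = 2 := by
    have : (D.range : Set G) = {0, b} := by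
      ext g
      constructor
      · rintro ⟨x, rfl⟩
        exact h2 x
      · rintro (rfl | rfl)
        · exact D.range.zero_mem
        · exact ⟨a, ha⟩
    have h3 : Nat.card D.range = Nat.card (({0, b} : Set G)) := by
      rw [← this]; rfl
    rw [h3, Nat.card_coe_set_eq, Set.ncard_pair hb0.symm]
  have hVcard : Nat.card V = 2 ^ (n + 1) := by
    have h3 : Nat.card G = Nat.card V * Nat.card D.range := by
      have h4 := V.card_mul_index
      have h5 : V.index = Nat.card D.range := AddSubgroup.index_ker D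
      rw [← h5, h4]
    rw [hcard, hrange, pow_succ] at h3
    omega
  -- complement of `b` in `V`
  have hbV : b ∈ V := (hV b).2 hb2
  obtain ⟨U, hU⟩ := Submodule.exists_isCompl (Submodule.span (ZMod 2) {(⟨b, hbV⟩ : V)})
  have hbU : (⟨b, hbV⟩ : V) ∉ U := by
    intro hh
    have := Submodule.disjoint_def.1 hU.disjoint _ (Submodule.mem_span_singleton_self _) hh
    exact hb0 (congrArg Subtype.val this)
  haveI : Module.Finite (ZMod 2) V := Module.Finite.of_finite
  have hVf : Module.finrank (ZMod 2) V = n + 1 := by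
    have h1 : Nat.card V = Nat.card (ZMod 2) ^ Module.finrank (ZMod 2) V :=
      Module.natCard_eq_pow_finrank (K := ZMod 2) (V := V)
    rw [hVcard, Nat.card_zmod] at h1
    exact (Nat.pow_right_injective le_rfl h1).symm
  have hUf : Module.finrank (ZMod 2) U = n := by
    have h1 := Submodule.finrank_add_eq_of_isCompl hU
    have h3 : (⟨b, hbV⟩ : V) ≠ 0 := fun hh => hb0 (congrArg Subtype.val hh)
    rw [finrank_span_singleton h3, hVf] at h1
    omega
  have hUcard : Nat.card U = 2 ^ n := by
    have h1 : Nat.card U = Nat.card (ZMod 2) ^ Module.finrank (ZMod 2) U :=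
      Module.natCard_eq_pow_finrank (K := ZMod 2) (V := U)
    rw [h1, hUf, Nat.card_zmod]
  -- the map
  have ha4 : (zmultiplesHom G a) (4 : ℕ) = 0 := by
    rw [zmultiplesHom_apply]
    have : ((4 : ℕ) : ℤ) • a = 2 • (2 • a) := by module
    rw [this, ha, hb2]
  let φ : ZMod 4 →+ G := ZMod.lift 4 ⟨zmultiplesHom G a, ha4⟩
  have hφ : ∀ m : ℕ, φ (m : ZMod 4) = m • a := by
    intro m
    have := ZMod.lift_coe 4 (⟨zmultiplesHom G a, ha4⟩ : {f : ℤ →+ G // f (4 : ℕ) = 0}) (m : ℤ)
    push_cast at this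
    rw [show φ (m : ZMod 4) = _ from this]
    simp
  let ψ : (U : Type _) →+ G := V.subtype.comp U.toAddSubgroup.subtype
  have hψ : ∀ u : U, ψ u = ((u : V) : G) := fun u => rfl
  let Φ : U × ZMod 4 →+ G := ψ.coprod φ
  have hinj : Function.Injective Φ := by
    rw [injective_iff_map_eq_zero]
    rintro ⟨u, m⟩ hum
    have h1 : ψ u + φ m = 0 := by simpa [Φ] using hum
    obtain ⟨k, hk, rfl⟩ : ∃ k : ℕ, k < 4 ∧ ((k : ℕ) : ZMod 4) = m := ⟨m.val, ZMod.val_lt m, by simp⟩
    rw [hφ, hψ] at h1
    have hu2 : 2 • ((u : V) : G) = 0 := (hV _).1 (u : V).2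
    have h3 : (2 * k) • a = 0 := by
      have : (2 * k) • a = 2 • (((u : V) : G) + k • a) - 2 • ((u : V) : G) := by
        rw [mul_nsmul']; module
      rw [this, h1, hu2]; simp
    have ha2 : 2 • a ≠ 0 := by rw [ha]; exact hb0
    interval_cases k
    · have h4 : ((u : V) : G) = 0 := by simpa using h1
      have : u = 0 := Subtype.ext (Subtype.ext h4)
      rw [this]; simp
    · exact absurd (by simpa using h3) ha2
    · exfalso
      apply hbU
      have h5 : (u : V) = ⟨b, hbV⟩ := by
        apply Subtype.ext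
        show ((u : V) : G) = b
        rw [ha] at h1
        have hbb : b + b = 0 := by rw [← two_nsmul]; exact hb2
        exact add_right_cancel (h1.trans hbb.symm)
      rw [← h5]; exact u.2
    · exfalso
      apply ha2
      have h6 : (2 * 3) • a = 2 • b + 2 • a := by rw [← ha]; module
      rw [h6, hb2, zero_add] at h3
      exact h3
  have hcardeq : Nat.card (U × ZMod 4) = Nat.card G := by
    rw [Nat.card_prod, hUcard, Nat.card_zmod, hcard, pow_add]; norm_num
  have hbij : Function.Bijective Φ := by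
    haveI : Finite (U × ZMod 4) := Nat.finite_of_card_ne_zero (by rw [hcardeq, hcard]; positivity)
    exact (Nat.bijective_iff_injective_and_card Φ).2 ⟨hinj, hcardeq⟩
  have e1 : U × ZMod 4 ≃+ G := AddEquiv.ofBijective Φ hbij
  have h4 : Module.finrank (ZMod 2) (Fin n → ZMod 2) = n := by simp
  have e2 : U ≃+ (Fin n → ZMod 2) :=
    (LinearEquiv.ofFinrankEq U (Fin n → ZMod 2) (hUf.trans h4.symm)).toAddEquiv
  exact ⟨e1.symm.trans (AddEquiv.prodCongr e2 (AddEquiv.refl _))⟩

end Pool.Agent.R322.PB
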