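import Mathlib

set_option autoImplicit false
set_option linter.unusedSectionVars false

namespace Pool.Agent.R322.PB

open Finset

variable {G : Type*} [AddCommGroup G] [DecidableEq G]

/-- perfect restricted `s`-basis -/
def Perf (s : ℕ) (A : Finset G) : Prop :=
  ∀ g : G, ∃! B : Finset G, B ⊆ A ∧ B.card ≤ s ∧ ∑ b ∈ B, b = g

variable {s : ℕ} {A : Finset G}

theorem uniq (h : Perf s A) {B B' : Finset G} (hB : B ⊆ A) (hB' : B' ⊆ A) (hc : B.card ≤ s)
    (hc' : B'.card ≤ s) (he : ∑ b ∈ B, b = ∑ b ∈ B', b) : B = B' :=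
  (h (∑ b ∈ B', b)).unique ⟨hB, hc, he⟩ ⟨hB', hc', rfl⟩

/-- the small representative -/
noncomputable def rep (h : Perf s A) (g : G) : Finset G := (h g).choose

theorem rep_sub (h : Perf s A) (g : G) : rep h g ⊆ A := (h g).choose_spec.1.1
theorem rep_card (h : Perf s A) (g : G) : (rep h g).card ≤ s := (h g).choose_spec.1.2.1
theorem rep_sum (h : Perf s A) (g : G) : ∑ b ∈ rep h g, b = g := (h g).choose_spec.1.2.2

theorem rep_eq (h : Perf s A) {B : Finset G} {g : G} (hB : B ⊆ A) (hc : B.card ≤ s)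
    (he : ∑ b ∈ B, b = g) : rep h g = B :=
  uniq h (rep_sub h g) hB (rep_card h g) hc ((rep_sum h g).trans he.symm)

/-- uniqueness for large sets -/
theorem uniqL (h : Perf s A) (hA : A.card = 2 * s + 1) {B B' : Finset G} (hB : B ⊆ A)
    (hB' : B' ⊆ A) (hc : s + 1 ≤ B.card) (hc' : s + 1 ≤ B'.card)
    (he : ∑ b ∈ B, b = ∑ b ∈ B', b) : B = B' := by
  have h1 : A \ B = A \ B' := by
    apply uniq h sdiff_subset sdiff_subset
    · rw [card_sdiff_of_subset hB]; omega
    · rw [card_sdiff_of_subset hB']; omega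
    · rw [sum_sdiff_eq_sub hB, sum_sdiff_eq_sub hB', he]
  rw [← Finset.sdiff_sdiff_eq_self hB, ← Finset.sdiff_sdiff_eq_self hB', h1]

/-- `M Y` -/
noncomputable def M (h : Perf s A) (Y : Finset G) : Finset G :=
  rep h (∑ a ∈ A, a - 2 • ∑ y ∈ Y, y)

theorem M_disj (h : Perf s A) (hA : A.card = 2 * s + 1) {Y : Finset G} (hY : Y ⊆ A)
    (hYc : Y.card = s + 1) : Disjoint (M h Y) Y := by
  set k := rep h (∑ y ∈ Y, y) with hk
  have hk1 : k ⊆ A := rep_sub h _
  have hk2 : k.card ≤ s := rep_card h _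
  have hk3 : ∑ b ∈ k, b = ∑ y ∈ Y, y := rep_sum h _
  have hdis : Disjoint k Y := by
    rw [Finset.disjoint_left]
    intro i hi hiY
    have e : Y.erase i = k.erase i := by
      apply uniq h ((erase_subset _ _).trans hY) ((erase_subset _ _).trans hk1)
      · rw [card_erase_of_mem hiY]; omega
      · rw [card_erase_of_mem hi]; omega
      · rw [← sub_eq_zero]
        have h1 := sum_erase_eq_sub (f := fun x : G => x) hiY
        have h2 := sum_erase_eq_sub (f := fun x : G => x) hi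
        rw [h1, h2, hk3]; abel
    have h1 := card_erase_of_mem hiY
    have h2 := card_erase_of_mem hi
    have h3 : 0 < k.card := card_pos.2 ⟨i, hi⟩
    rw [e] at h1
    omega
  have hsub : Y ∪ k ⊆ A := union_subset hY hk1
  have hM : M h Y = A \ (Y ∪ k) := by
    apply rep_eq h sdiff_subset
    · rw [card_sdiff_of_subset hsub]
      have : Y.card ≤ (Y ∪ k).card := card_le_card subset_union_left
      omega
    · rw [sum_sdiff_eq_sub hsub, sum_union hdis.symm, hk3, two_nsmul]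
  rw [hM]
  exact Finset.disjoint_left.2 (fun x hx hxY => (mem_sdiff.1 hx).2 (mem_union_left _ hxY))

theorem M_sub (h : Perf s A) (Y : Finset G) : M h Y ⊆ A := rep_sub h _
theorem M_card (h : Perf s A) (Y : Finset G) : (M h Y).card ≤ s := rep_card h _
theorem M_sum (h : Perf s A) (Y : Finset G) :
    ∑ b ∈ M h Y, b = ∑ a ∈ A, a - 2 • ∑ y ∈ Y, y := rep_sum h _

/-- exchange -/
theorem sum_swap {Y : Finset G} {j j' : G} (hj : j ∈ Y) (hj' : j' ∉ Y) :
    ∑ y ∈ insert j' (Y.erase j), y = ∑ y ∈ Y, y - j + j' := by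
  have h1 : j' ∉ Y.erase j := fun hh => hj' (mem_of_mem_erase hh)
  rw [sum_insert h1, sum_erase_eq_sub (f := fun x : G => x) hj]
  abel

theorem card_swap {Y : Finset G} {j j' : G} (hj : j ∈ Y) (hj' : j' ∉ Y) :
    (insert j' (Y.erase j)).card = Y.card := by
  have h1 : j' ∉ Y.erase j := fun hh => hj' (mem_of_mem_erase hh)
  have h2 : 0 < Y.card := card_pos.2 ⟨j, hj⟩
  rw [card_insert_of_notMem h1, card_erase_of_mem hj]
  omega

/-- (L1) -/
theorem L1 (h : Perf s A) (hA : A.card = 2 * s + 1) {Y : Finset G} (hY : Y ⊆ A)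
    (hYc : Y.card = s + 1) {j j' : G} (hj : j ∈ Y) (hj' : j' ∈ M h Y)
    (hj2 : j ∈ M h (insert j' (Y.erase j))) : False := by
  have hdis := M_disj h hA hY hYc
  have hj'Y : j' ∉ Y := Finset.disjoint_left.1 hdis hj'
  have hj'A : j' ∈ A := M_sub h _ hj'
  set Y' := insert j' (Y.erase j) with hY'
  have hY'A : Y' ⊆ A := by
    intro x hx
    rcases mem_insert.1 hx with rfl | hx
    · exact hj'A
    · exact hY (mem_of_mem_erase hx)
  have hY'c : Y'.card = s + 1 := (card_swap hj hj'Y).trans hYc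
  have hdis' := M_disj h hA hY'A hY'c
  have hjY' : j ∉ Y' := Finset.disjoint_left.1 hdis' hj2
  -- the sets `k`
  have hRsub : Y ∪ M h Y ⊆ A := union_subset hY (M_sub h _)
  have hRsub' : Y' ∪ M h Y' ⊆ A := union_subset hY'A (M_sub h _)
  set k := A \ (Y ∪ M h Y) with hk
  set k' := A \ (Y' ∪ M h Y') with hk'
  have hkc : k.card + 1 ≤ s := by
    rw [hk, card_sdiff_of_subset hRsub, card_union_of_disjoint hdis.symm]
    have : 0 < (M h Y).card := card_pos.2 ⟨j', hj'⟩
    have h2 := card_le_card hRsub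
    rw [card_union_of_disjoint hdis.symm] at h2
    omega
  have hkc' : k'.card + 1 ≤ s := by
    rw [hk', card_sdiff_of_subset hRsub', card_union_of_disjoint hdis'.symm]
    have : 0 < (M h Y').card := card_pos.2 ⟨j, hj2⟩
    have h2 := card_le_card hRsub'
    rw [card_union_of_disjoint hdis'.symm] at h2
    omega
  have hsk : ∑ b ∈ k, b = ∑ y ∈ Y, y := by
    rw [hk, sum_sdiff_eq_sub hRsub, sum_union hdis.symm, M_sum]
    abel
  have hsk' : ∑ b ∈ k', b = ∑ y ∈ Y', y := by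
    rw [hk', sum_sdiff_eq_sub hRsub', sum_union hdis'.symm, M_sum]
    abel
  have hj'k : j' ∉ k := fun hh => (mem_sdiff.1 hh).2 (mem_union_right _ hj')
  have hjk' : j ∉ k' := fun hh => (mem_sdiff.1 hh).2 (mem_union_right _ hj2)
  have he : insert j k' = insert j' k := by
    apply uniq h
    · exact insert_subset (hY hj) sdiff_subset
    · exact insert_subset hj'A sdiff_subset
    · exact (card_insert_le _ _).trans hkc'
    · exact (card_insert_le _ _).trans hkc
    · rw [sum_insert hjk', sum_insert hj'k, hsk, hsk', hY', sum_swap hj hj'Y]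
      abel
  have hjin : j ∈ insert j' k := by rw [← he]; exact mem_insert_self _ _
  rcases mem_insert.1 hjin with h1 | h1
  · exact hj'Y (h1 ▸ hj)
  · exact (mem_sdiff.1 h1).2 (mem_union_left _ hj)

/-- (C1) colours -/
theorem C1 (h : Perf s A) (hA : A.card = 2 * s + 1) {Y : Finset G} (hY : Y ⊆ A)
    (hYc : Y.card = s + 1) {x y : G} (hx : x ∈ M h Y) (hy : y ∈ Y) : 2 • x ≠ 2 • y := by
  intro he
  have hdis := M_disj h hA hY hYc
  have hxY : x ∉ Y := Finset.disjoint_left.1 hdis hx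
  have hxA : x ∈ A := M_sub h _ hx
  have hY'A : insert x (Y.erase y) ⊆ A := by
    intro z hz
    rcases mem_insert.1 hz with rfl | hz
    · exact hxA
    · exact hY (mem_of_mem_erase hz)
  have hM : M h (insert x (Y.erase y)) = M h Y := by
    unfold M
    congr 1
    rw [sum_swap hy hxY]
    have : 2 • (∑ y ∈ Y, y - y + x) = 2 • ∑ y ∈ Y, y := by
      rw [nsmul_add, nsmul_sub, he]; abel
    rw [this]
  have hdis' := M_disj h hA hY'A ((card_swap hy hxY).trans hYc)
  rw [hM] at hdis'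
  exact Finset.disjoint_left.1 hdis' hx (mem_insert_self _ _)

/-- the union `W` -/
noncomputable def W (h : Perf s A) (j : G) (Q : Finset G) : Finset G :=
  M h (insert j Q) ∪ M h (insert j ((A.erase j) \ Q))

section pivot

variable (h : Perf s A) (hA : A.card = 2 * s + 1) {j : G} (hj : j ∈ A)
include hA hj

theorem Qc {Q : Finset G} (hQ : Q ⊆ A.erase j) (hQc : Q.card = s) :
    ((A.erase j) \ Q).card = s := by
  rw [card_sdiff_of_subset hQ, card_erase_of_mem hj]; omega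

theorem Y_sub {Q : Finset G} (hQ : Q ⊆ A.erase j) : insert j Q ⊆ A :=
  insert_subset hj (hQ.trans (erase_subset _ _))

theorem Y_card {Q : Finset G} (hQ : Q ⊆ A.erase j) (hQc : Q.card = s) :
    (insert j Q).card = s + 1 := by
  rw [card_insert_of_notMem (fun hh => (mem_erase.1 (hQ hh)).1 rfl), hQc]

theorem M1_sub {Q : Finset G} (hQ : Q ⊆ A.erase j) (hQc : Q.card = s) :
    M h (insert j Q) ⊆ (A.erase j) \ Q := by
  intro x hx
  have hd := Finset.disjoint_left.1 (M_disj h hA (Y_sub hA hj hQ) (Y_card hA hj hQ hQc)) hx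
  rw [mem_insert, not_or] at hd
  exact mem_sdiff.2 ⟨mem_erase.2 ⟨hd.1, M_sub h _ hx⟩, hd.2⟩

theorem M2_sub {Q : Finset G} (hQ : Q ⊆ A.erase j) (hQc : Q.card = s) :
    M h (insert j ((A.erase j) \ Q)) ⊆ Q := by
  intro x hx
  have h1 := M1_sub h hA hj (Q := (A.erase j) \ Q) sdiff_subset (Qc hA hj hQ hQc) hx
  rw [Finset.sdiff_sdiff_eq_self hQ] at h1
  exact h1

theorem W_sub {Q : Finset G} (hQ : Q ⊆ A.erase j) (hQc : Q.card = s) : W h j Q ⊆ A.erase j :=
  union_subset ((M1_sub h hA hj hQ hQc).trans sdiff_subset) ((M2_sub h hA hj hQ hQc).trans hQ)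

theorem W_disj {Q : Finset G} (hQ : Q ⊆ A.erase j) (hQc : Q.card = s) :
    Disjoint (M h (insert j Q)) (M h (insert j ((A.erase j) \ Q))) := by
  rw [Finset.disjoint_left]
  intro x hx hx'
  exact (mem_sdiff.1 (M1_sub h hA hj hQ hQc hx)).2 (M2_sub h hA hj hQ hQc hx')

theorem W_sum {Q : Finset G} (hQ : Q ⊆ A.erase j) (hQc : Q.card = s) :
    ∑ x ∈ W h j Q, x = - (2 • j) := by
  have hjQ : j ∉ Q := fun hh => (mem_erase.1 (hQ hh)).1 rfl
  have hjQ' : j ∉ (A.erase j) \ Q := fun hh => (mem_erase.1 (mem_sdiff.1 hh).1).1 rfl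
  unfold W
  rw [sum_union (W_disj h hA hj hQ hQc), M_sum, M_sum, sum_insert hjQ, sum_insert hjQ',
    sum_sdiff_eq_sub hQ, sum_erase_eq_sub (f := fun x : G => x) hj]
  module

theorem W_swap (Q : Finset G) (hQ : Q ⊆ A.erase j) : W h j ((A.erase j) \ Q) = W h j Q := by
  unfold W
  rw [Finset.sdiff_sdiff_eq_self hQ, union_comm]

theorem M_eq_W_sdiff {Q : Finset G} (hQ : Q ⊆ A.erase j) (hQc : Q.card = s) :
    M h (insert j Q) = W h j Q \ Q := by
  ext x
  rw [mem_sdiff, W, mem_union]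
  constructor
  · intro hx
    exact ⟨Or.inl hx, (mem_sdiff.1 (M1_sub h hA hj hQ hQc hx)).2⟩
  · rintro ⟨hx | hx, hx2⟩
    · exact hx
    · exact absurd (M2_sub h hA hj hQ hQc hx) hx2

/-- (C2) -/
theorem C2 {Q : Finset G} (hQ : Q ⊆ A.erase j) (hQc : Q.card = s) {x y : G} (hx : x ∈ W h j Q)
    (hy : y ∈ A.erase j) (he : 2 • x = 2 • y) : x ∈ Q ↔ y ∈ Q := by
  constructor
  · intro hxQ
    by_contra hyQ
    have hx' : x ∈ M h (insert j ((A.erase j) \ Q)) := by
      rw [W, mem_union] at hx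
      rcases hx with hx | hx
      · exact absurd hxQ (mem_sdiff.1 (M1_sub h hA hj hQ hQc hx)).2
      · exact hx
    exact C1 h hA (Y_sub hA hj sdiff_subset) (Y_card hA hj sdiff_subset (Qc hA hj hQ hQc)) hx'
      (mem_insert_of_mem (mem_sdiff.2 ⟨hy, hyQ⟩)) he
  · intro hyQ
    by_contra hxQ
    have hx' : x ∈ M h (insert j Q) := by
      rw [M_eq_W_sdiff h hA hj hQ hQc]; exact mem_sdiff.2 ⟨hx, hxQ⟩
    exact C1 h hA (Y_sub hA hj hQ) (Y_card hA hj hQ hQc) hx' (mem_insert_of_mem hyQ) he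

theorem W_dich {Q L : Finset G} (hQ : Q ⊆ A.erase j) (hQc : Q.card = s) (hL : L ⊆ A)
    (hLc : s + 1 ≤ L.card) (hLs : ∑ x ∈ L, x = -(2 • j)) :
    W h j Q = rep h (-(2 • j)) ∨ W h j Q = L := by
  by_cases hc : (W h j Q).card ≤ s
  · left
    exact (rep_eq h ((W_sub h hA hj hQ hQc).trans (erase_subset _ _)) hc (W_sum h hA hj hQ hQc)).symm
  · right
    exact uniqL h hA ((W_sub h hA hj hQ hQc).trans (erase_subset _ _)) hL (by omega) hLc
      ((W_sum h hA hj hQ hQc).trans hLs.symm)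

theorem swap_sub {Q : Finset G} (hQ : Q ⊆ A.erase j) {x x' : G} (hx' : x' ∈ A.erase j) :
    insert x' (Q.erase x) ⊆ A.erase j := by
  intro z hz
  rcases mem_insert.1 hz with rfl | hz
  · exact hx'
  · exact hQ (mem_of_mem_erase hz)

theorem insert_swap {Q : Finset G} (hQ : Q ⊆ A.erase j) {x x' : G} (hx : x ∈ Q) :
    insert j (insert x' (Q.erase x)) = insert x' ((insert j Q).erase x) := by
  have hxj : x ≠ j := (mem_erase.1 (hQ hx)).1
  rw [erase_insert_of_ne hxj.symm, Finset.insert_comm]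

/-- (C3) and the difference formula -/
theorem C3 {Q S1 S2 : Finset G} (hQ : Q ⊆ A.erase j) (hQc : Q.card = s) {x x' : G} (hx : x ∈ Q)
    (hx' : x' ∈ A.erase j) (hx'Q : x' ∉ Q) (h1 : W h j Q = S1)
    (h2 : W h j (insert x' (Q.erase x)) = S2) (hxS : x ∉ S2) (hx'S : x' ∉ S2) :
    2 • x' - 2 • x = ∑ z ∈ S1 \ Q, z - ∑ z ∈ S2 \ Q, z := by
  have hjQ : j ∉ Q := fun hh => (mem_erase.1 (hQ hh)).1 rfl
  have hQ2 := swap_sub hA hj hQ (x := x) hx'
  have hQ2c : (insert x' (Q.erase x)).card = s := (card_swap hx hx'Q).trans hQc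
  have e1 := M_sum h (insert j Q)
  have e2 := M_sum h (insert j (insert x' (Q.erase x)))
  rw [M_eq_W_sdiff h hA hj hQ hQc, h1] at e1
  rw [M_eq_W_sdiff h hA hj hQ2 hQ2c, h2] at e2
  have e3 : S2 \ insert x' (Q.erase x) = S2 \ Q := by
    ext z
    rw [mem_sdiff, mem_sdiff, mem_insert, mem_erase]
    constructor
    · rintro ⟨hz, hz2⟩
      refine ⟨hz, fun hzQ => hz2 (Or.inr ⟨?_, hzQ⟩)⟩
      rintro rfl; exact hxS hz
    · rintro ⟨hz, hz2⟩
      refine ⟨hz, ?_⟩
      rintro (rfl | hz3)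
      · exact hx'S hz
      · exact hz2 hz3.2
  have hjQ2 : j ∉ insert x' (Q.erase x) := fun hh => (mem_erase.1 (hQ2 hh)).1 rfl
  rw [e3, sum_insert hjQ2, sum_swap hx hx'Q] at e2
  rw [sum_insert hjQ] at e1
  rw [e1, e2]
  module

/-- If `W = L` is large then swapping inside `P = L \ S` gives `W = S`. -/
theorem swap_small {Q L : Finset G} (hQ : Q ⊆ A.erase j) (hQc : Q.card = s)
    (hLc : s + 1 ≤ L.card) (hW : W h j Q = L) {i i' : G} (hi : i ∈ Q) (hiL : i ∈ L) (hi'L : i' ∈ L)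
    (hi'Q : i' ∉ Q) : W h j (insert i' (Q.erase i)) = rep h (-(2 • j)) := by
  have hLA : L ⊆ A.erase j := hW ▸ W_sub h hA hj hQ hQc
  have hQ2 := swap_sub hA hj hQ (x := i) (hLA hi'L)
  have hQ2c : (insert i' (Q.erase i)).card = s := (card_swap hi hi'Q).trans hQc
  rcases W_dich h hA hj hQ2 hQ2c (hLA.trans (erase_subset _ _)) hLc
    (hW ▸ W_sum h hA hj hQ hQc) with hcase | hcase
  · exact hcase
  · exfalso
    refine L1 h hA (Y_sub hA hj hQ) (Y_card hA hj hQ hQc) (j := i) (j' := i')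
      (mem_insert_of_mem hi) ?_ ?_
    · rw [M_eq_W_sdiff h hA hj hQ hQc, hW]; exact mem_sdiff.2 ⟨hi'L, hi'Q⟩
    · rw [← insert_swap hA hj hQ hi, M_eq_W_sdiff h hA hj hQ2 hQ2c, hcase]
      refine mem_sdiff.2 ⟨hiL, ?_⟩
      rw [mem_insert, mem_erase]
      rintro (h1 | h1)
      · exact hi'Q (h1 ▸ hi)
      · exact h1.1 rfl

end pivot

theorem P_card (h : Perf s A) {L S : Finset G} (hL : L ⊆ A) (hS : S ⊆ A) (hLc : s + 1 ≤ L.card)
    (hSc : S.card ≤ s) (he : ∑ x ∈ L, x = ∑ x ∈ S, x) : s + 1 ≤ (L \ S).card := by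
  by_contra hcon
  have h1 : L \ S = S \ L := by
    apply uniq h (sdiff_subset.trans hL) (sdiff_subset.trans hS) (by omega)
    · exact (card_le_card sdiff_subset).trans hSc
    · have e1 := sum_sdiff_sub_sum_sdiff (s₁ := L) (s₂ := S) (f := fun x : G => x)
      rw [← sub_eq_zero]
      have e2 : ∑ x ∈ L \ S, x + ∑ x ∈ L ∩ S, x = ∑ x ∈ L, x := by
        rw [add_comm]; exact sum_inter_add_sum_sdiff L S (fun x : G => x)
      have e3 : ∑ x ∈ S \ L, x + ∑ x ∈ L ∩ S, x = ∑ x ∈ S, x := by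
        rw [add_comm, inter_comm]; exact sum_inter_add_sum_sdiff S L (fun x : G => x)
      have : ∑ x ∈ L \ S, x - ∑ x ∈ S \ L, x = ∑ x ∈ L, x - ∑ x ∈ S, x := by
        rw [← e2, ← e3]; abel
      rw [this, he, sub_self]
  have h2 : L \ S = ∅ := by
    rw [eq_empty_iff_forall_notMem]
    intro x hx
    have hx' := hx
    rw [h1] at hx'
    exact (mem_sdiff.1 hx').2 (mem_sdiff.1 hx).1
  have h3 : L ⊆ S := by rwa [sdiff_eq_empty_iff_subset] at h2
  have := card_le_card h3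
  omega

end Pool.Agent.R322.PB
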