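import Mathlib
import Pool.Agent.R322.PB.Core

set_option autoImplicit false
set_option linter.unusedSectionVars false

namespace Pool.Agent.R322.PB

open Finset

variable {G : Type*} [AddCommGroup G] [DecidableEq G] {s : ℕ} {A : Finset G}

section
variable (h : Perf s A) (hA : A.card = 2 * s + 1) {j : G} (hj : j ∈ A)
include hA hj

/-- The final contradiction, given a good `Q₁`. -/
theorem finish {Q0 L : Finset G} (hQ0 : Q0 ⊆ A.erase j) (hQ0c : Q0.card = s)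
    (hLc : s + 1 ≤ L.card) (hW : W h j Q0 = L) {i i' : G} (hi : i ∈ Q0) (hiL : i ∈ L)
    (hiS : i ∉ rep h (-(2 • j))) (hi'Q : i' ∉ Q0) (hi'L : i' ∈ L) (hi'S : i' ∉ rep h (-(2 • j)))
    {Q1 : Finset G} (hQ1 : Q1 ⊆ A.erase j) (hQ1c : Q1.card = s) (hiQ1 : i ∈ Q1) (hi'Q1 : i' ∉ Q1)
    (h1 : W h j Q1 ≠ L) (h2 : W h j (insert i' (Q1.erase i)) ≠ L) : False := by
  have hLA : L ⊆ A.erase j := hW ▸ W_sub h hA hj hQ0 hQ0c
  have hLs : ∑ x ∈ L, x = -(2 • j) := hW ▸ W_sum h hA hj hQ0 hQ0c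
  have hQ2 := swap_sub hA hj hQ1 (x := i) (hLA hi'L)
  have hQ2c : (insert i' (Q1.erase i)).card = s := (card_swap hiQ1 hi'Q1).trans hQ1c
  have hW1 := (W_dich h hA hj hQ1 hQ1c (hLA.trans (erase_subset _ _)) hLc hLs).resolve_right h1
  have hW2 := (W_dich h hA hj hQ2 hQ2c (hLA.trans (erase_subset _ _)) hLc hLs).resolve_right h2
  have h3 := C3 h hA hj hQ1 hQ1c hiQ1 (hLA hi'L) hi'Q1 hW1 hW2 hiS hi'S
  rw [sub_self, sub_eq_zero] at h3
  have h4 := C2 h hA hj hQ0 hQ0c (x := i) (y := i') (hW ▸ hiL) (hLA hi'L) h3.symm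
  exact hi'Q (h4.1 hi)

/-- same colours inside `P ∩ Q` -/
theorem same_left {Q L : Finset G} (hQ : Q ⊆ A.erase j) (hQc : Q.card = s)
    (hLc : s + 1 ≤ L.card) (hW : W h j Q = L) {i i2 i' : G}
    (hi : i ∈ Q) (hiL : i ∈ L) (hiS : i ∉ rep h (-(2 • j)))
    (hi2 : i2 ∈ Q) (hi2L : i2 ∈ L) (hi2S : i2 ∉ rep h (-(2 • j)))
    (hi'Q : i' ∉ Q) (hi'L : i' ∈ L) (hi'S : i' ∉ rep h (-(2 • j))) : 2 • i = 2 • i2 := by
  have hLA : L ⊆ A.erase j := hW ▸ W_sub h hA hj hQ hQc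
  have e1 := C3 h hA hj hQ hQc hi (hLA hi'L) hi'Q hW
    (swap_small h hA hj hQ hQc hLc hW hi hiL hi'L hi'Q) hiS hi'S
  have e2 := C3 h hA hj hQ hQc hi2 (hLA hi'L) hi'Q hW
    (swap_small h hA hj hQ hQc hLc hW hi2 hi2L hi'L hi'Q) hi2S hi'S
  have := e1.trans e2.symm
  exact sub_right_injective this

theorem same_right {Q L : Finset G} (hQ : Q ⊆ A.erase j) (hQc : Q.card = s)
    (hLc : s + 1 ≤ L.card) (hW : W h j Q = L) {i i' i2 : G}
    (hi : i ∈ Q) (hiL : i ∈ L) (hiS : i ∉ rep h (-(2 • j)))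
    (hi'Q : i' ∉ Q) (hi'L : i' ∈ L) (hi'S : i' ∉ rep h (-(2 • j)))
    (hi2Q : i2 ∉ Q) (hi2L : i2 ∈ L) (hi2S : i2 ∉ rep h (-(2 • j))) : 2 • i' = 2 • i2 := by
  have hLA : L ⊆ A.erase j := hW ▸ W_sub h hA hj hQ hQc
  have e1 := C3 h hA hj hQ hQc hi (hLA hi'L) hi'Q hW
    (swap_small h hA hj hQ hQc hLc hW hi hiL hi'L hi'Q) hiS hi'S
  have e2 := C3 h hA hj hQ hQc hi (hLA hi2L) hi2Q hW
    (swap_small h hA hj hQ hQc hLc hW hi hiL hi2L hi2Q) hiS hi2S
  have := e1.trans e2.symm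
  exact sub_left_injective this

/-- If `x ∈ L` and `y` has the same colour and exactly one of them is in `Q`, then `W ≠ L`. -/
theorem ne_of_split {Q L : Finset G} (hQ : Q ⊆ A.erase j) (hQc : Q.card = s) {x y : G}
    (hx : x ∈ L) (hy : y ∈ A.erase j) (he : 2 • x = 2 • y) (hxQ : x ∈ Q) (hyQ : y ∉ Q) :
    W h j Q ≠ L := by
  intro hW
  exact hyQ ((C2 h hA hj hQ hQc (hW ▸ hx) hy he).1 hxQ)

theorem step3_aux (hs : 3 ≤ s) {Q0 L : Finset G} (hQ0 : Q0 ⊆ A.erase j) (hQ0c : Q0.card = s)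
    (hLc : s + 1 ≤ L.card) (hW : W h j Q0 = L)
    (hP : 2 ≤ ((L \ rep h (-(2 • j))) \ Q0).card) (hP' : ((L \ rep h (-(2 • j))) ∩ Q0).Nonempty)
    (hP'' : 3 ≤ ((L \ rep h (-(2 • j))) \ Q0).card ∨ 2 ≤ ((L \ rep h (-(2 • j))) ∩ Q0).card) :
    False := by
  have hLA : L ⊆ A.erase j := hW ▸ W_sub h hA hj hQ0 hQ0c
  set S := rep h (-(2 • j)) with hS
  obtain ⟨i, hi⟩ := hP'
  rw [mem_inter, mem_sdiff] at hi
  obtain ⟨⟨hiL, hiS⟩, hiQ⟩ := hi
  rcases hP'' with hc3 | hc2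
  · -- case B
    obtain ⟨i', h1, i'', h2, i''', h3, hne⟩ := two_lt_card.1 hc3
    rw [mem_sdiff, mem_sdiff] at h1 h2 h3
    obtain ⟨⟨h1L, h1S⟩, h1Q⟩ := h1
    obtain ⟨⟨h2L, h2S⟩, h2Q⟩ := h2
    obtain ⟨⟨h3L, h3S⟩, h3Q⟩ := h3
    obtain ⟨n12, n13, n23⟩ := hne
    have c12 := same_right h hA hj hQ0 hQ0c hLc hW hiQ hiL hiS h1Q h1L h1S h2Q h2L h2S
    have c13 := same_right h hA hj hQ0 hQ0c hLc hW hiQ hiL hiS h1Q h1L h1S h3Q h3L h3S
    have hne1 : i ≠ i' := fun hh => h1Q (hh ▸ hiQ)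
    have hne2 : i ≠ i'' := fun hh => h2Q (hh ▸ hiQ)
    have hne3 : i ≠ i''' := fun hh => h3Q (hh ▸ hiQ)
    -- choose Q1
    obtain ⟨Q1, hsub, hsub2, hc⟩ := Finset.exists_subsuperset_card_eq
      (s := ({i, i''} : Finset G)) (t := (A.erase j) \ {i', i'''}) (n := s) (by
        intro z hz
        rw [mem_insert, mem_singleton] at hz
        rw [mem_sdiff, mem_insert, mem_singleton]
        rcases hz with rfl | rfl
        · exact ⟨hLA hiL, by rintro (rfl | rfl) <;> simp_all⟩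
        · exact ⟨hLA h2L, by rintro (rfl | rfl) <;> simp_all⟩)
      ((card_le_two).trans (by omega)) (by
        have hsub3 : ({i', i'''} : Finset G) ⊆ A.erase j := by
          intro z hz
          rw [mem_insert, mem_singleton] at hz
          rcases hz with rfl | rfl
          · exact hLA h1L
          · exact hLA h3L
        rw [card_sdiff_of_subset hsub3, card_erase_of_mem hj]
        have : ({i', i'''} : Finset G).card ≤ 2 := card_le_two
        omega)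
    have hQ1 : Q1 ⊆ A.erase j := hsub2.trans sdiff_subset
    have hiQ1 : i ∈ Q1 := hsub (by simp)
    have h2Q1 : i'' ∈ Q1 := hsub (by simp)
    have h1Q1 : i' ∉ Q1 := fun hh => (mem_sdiff.1 (hsub2 hh)).2 (by simp)
    have h3Q1 : i''' ∉ Q1 := fun hh => (mem_sdiff.1 (hsub2 hh)).2 (by simp)
    have hQ2 := swap_sub hA hj hQ1 (x := i) (hLA h1L)
    have hQ2c : (insert i' (Q1.erase i)).card = s := (card_swap hiQ1 h1Q1).trans hc
    refine finish h hA hj hQ0 hQ0c hLc hW hiQ hiL hiS h1Q h1L h1S hQ1 hc hiQ1 h1Q1 ?_ ?_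
    · exact ne_of_split h hA hj hQ1 hc h2L (hLA h1L) c12.symm h2Q1 h1Q1
    · refine ne_of_split h hA hj hQ2 hQ2c h1L (hLA h3L) c13 (mem_insert_self _ _) ?_
      rw [mem_insert, mem_erase]
      rintro (hh | hh)
      · exact n13 hh.symm
      · exact h3Q1 hh.2
  · -- case A
    obtain ⟨i2, hi2, hne2⟩ := exists_mem_ne (s := (L \ S) ∩ Q0) (by omega) i
    rw [mem_inter, mem_sdiff] at hi2
    obtain ⟨⟨hi2L, hi2S⟩, hi2Q⟩ := hi2
    obtain ⟨i', h1, i'', h2, n12⟩ := one_lt_card.1 (by omega : 1 < ((L \ S) \ Q0).card)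
    rw [mem_sdiff, mem_sdiff] at h1 h2
    obtain ⟨⟨h1L, h1S⟩, h1Q⟩ := h1
    obtain ⟨⟨h2L, h2S⟩, h2Q⟩ := h2
    have c12 := same_right h hA hj hQ0 hQ0c hLc hW hiQ hiL hiS h1Q h1L h1S h2Q h2L h2S
    have cii := same_left h hA hj hQ0 hQ0c hLc hW hiQ hiL hiS hi2Q hi2L hi2S h1Q h1L h1S
    have hne3 : i ≠ i' := fun hh => h1Q (hh ▸ hiQ)
    have hne4 : i ≠ i'' := fun hh => h2Q (hh ▸ hiQ)
    obtain ⟨Q1, hsub, hsub2, hc⟩ := Finset.exists_subsuperset_card_eq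
      (s := ({i} : Finset G)) (t := (A.erase j) \ {i2, i', i''}) (n := s) (by
        intro z hz
        rw [mem_singleton] at hz
        subst hz
        rw [mem_sdiff, mem_insert, mem_insert, mem_singleton]
        refine ⟨hLA hiL, ?_⟩
        rintro (hh | hh | hh)
        · exact hne2 hh.symm
        · exact hne3 hh
        · exact hne4 hh)
      (by rw [card_singleton]; omega) (by
        have hsub3 : ({i2, i', i''} : Finset G) ⊆ A.erase j := by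
          intro z hz
          rw [mem_insert, mem_insert, mem_singleton] at hz
          rcases hz with rfl | rfl | rfl
          · exact hLA hi2L
          · exact hLA h1L
          · exact hLA h2L
        rw [card_sdiff_of_subset hsub3, card_erase_of_mem hj]
        have : ({i2, i', i''} : Finset G).card ≤ 3 := card_le_three
        omega)
    have hQ1 : Q1 ⊆ A.erase j := hsub2.trans sdiff_subset
    have hiQ1 : i ∈ Q1 := hsub (by simp)
    have hi2Q1 : i2 ∉ Q1 := fun hh => (mem_sdiff.1 (hsub2 hh)).2 (by simp)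
    have h1Q1 : i' ∉ Q1 := fun hh => (mem_sdiff.1 (hsub2 hh)).2 (by simp)
    have h2Q1 : i'' ∉ Q1 := fun hh => (mem_sdiff.1 (hsub2 hh)).2 (by simp)
    have hQ2 := swap_sub hA hj hQ1 (x := i) (hLA h1L)
    have hQ2c : (insert i' (Q1.erase i)).card = s := (card_swap hiQ1 h1Q1).trans hc
    refine finish h hA hj hQ0 hQ0c hLc hW hiQ hiL hiS h1Q h1L h1S hQ1 hc hiQ1 h1Q1 ?_ ?_
    · exact ne_of_split h hA hj hQ1 hc hiL (hLA hi2L) cii hiQ1 hi2Q1
    · refine ne_of_split h hA hj hQ2 hQ2c h1L (hLA h2L) c12 (mem_insert_self _ _) ?_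
      rw [mem_insert, mem_erase]
      rintro (hh | hh)
      · exact n12 hh.symm
      · exact h2Q1 hh.2

/-- counting facts about `P = L \ S` -/
theorem P_facts {Q0 L : Finset G} (hQ0 : Q0 ⊆ A.erase j) (hQ0c : Q0.card = s)
    (hLc : s + 1 ≤ L.card) (hW : W h j Q0 = L) :
    s + 1 ≤ ((L \ rep h (-(2 • j))) \ Q0).card + ((L \ rep h (-(2 • j))) ∩ Q0).card ∧
    ((L \ rep h (-(2 • j))) \ Q0).card ≤ s ∧ ((L \ rep h (-(2 • j))) ∩ Q0).card ≤ s := by
  have hLA : L ⊆ A.erase j := hW ▸ W_sub h hA hj hQ0 hQ0c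
  have hLs : ∑ x ∈ L, x = -(2 • j) := hW ▸ W_sum h hA hj hQ0 hQ0c
  have h1 := P_card h (hLA.trans (erase_subset _ _)) (rep_sub h (-(2 • j))) hLc
    (rep_card h (-(2 • j))) (hLs.trans (rep_sum h _).symm)
  refine ⟨?_, ?_, ?_⟩
  · rw [card_sdiff_add_card_inter]; exact h1
  · have h2 : (L \ rep h (-(2 • j))) \ Q0 ⊆ (A.erase j) \ Q0 :=
      sdiff_subset_sdiff (sdiff_subset.trans hLA) le_rfl
    have := card_le_card h2
    rw [Qc hA hj hQ0 hQ0c] at this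
    exact this
  · exact (card_le_card inter_subset_right).trans hQ0c.le

theorem step3 (hs : 3 ≤ s) {Q0 : Finset G} (hQ0 : Q0 ⊆ A.erase j) (hQ0c : Q0.card = s) :
    (W h j Q0).card ≤ s := by
  by_contra hcon
  push Not at hcon
  obtain ⟨L, hL⟩ : ∃ L, L = W h j Q0 := ⟨_, rfl⟩
  have hLc : s + 1 ≤ L.card := by rw [hL]; omega
  obtain ⟨f1, f2, f3⟩ := P_facts h hA hj hQ0 hQ0c hLc hL.symm
  by_cases hb : 2 ≤ ((L \ rep h (-(2 • j))) \ Q0).card
  · refine step3_aux h hA hj hs hQ0 hQ0c hLc hL.symm hb (card_pos.1 (by omega)) (by omega)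
  · -- swap
    have hQ0' : (A.erase j) \ Q0 ⊆ A.erase j := sdiff_subset
    have hW' : W h j ((A.erase j) \ Q0) = L := (W_swap h hA hj Q0 hQ0).trans hL.symm
    have hLA : L ⊆ A.erase j := hL ▸ W_sub h hA hj hQ0 hQ0c
    have e1 : (L \ rep h (-(2 • j))) \ ((A.erase j) \ Q0) = (L \ rep h (-(2 • j))) ∩ Q0 := by
      ext z
      rw [mem_sdiff, mem_inter, mem_sdiff, mem_sdiff]
      constructor
      · rintro ⟨h1, h2⟩
        refine ⟨h1, ?_⟩
        by_contra hz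
        exact h2 ⟨hLA h1.1, hz⟩
      · rintro ⟨h1, h2⟩
        exact ⟨h1, fun h3 => h3.2 h2⟩
    have e2 : (L \ rep h (-(2 • j))) ∩ ((A.erase j) \ Q0) = (L \ rep h (-(2 • j))) \ Q0 := by
      ext z
      rw [mem_sdiff, mem_inter, mem_sdiff, mem_sdiff]
      constructor
      · rintro ⟨h1, h2⟩
        exact ⟨h1, h2.2⟩
      · rintro ⟨h1, h2⟩
        exact ⟨h1, hLA h1.1, h2⟩
    refine step3_aux h hA hj hs hQ0' (Qc hA hj hQ0 hQ0c) hLc hW' ?_ ?_ ?_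
    · rw [e1]; omega
    · rw [e2]; exact card_pos.1 (by omega)
    · rw [e1, e2]; omega

end

end Pool.Agent.R322.PB
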