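import Mathlib
import Pool.Agent.R322.PB.Step3

set_option autoImplicit false
set_option linter.unusedSectionVars false

namespace Pool.Agent.R322.PB

open Finset

variable {G : Type*} [AddCommGroup G]

/-- the five-element contradiction for `s = 2` -/
theorem five (hcard : Nat.card G = 16) (i e i1 i2 j : G)
    (n0i : i ≠ 0) (n0e : e ≠ 0) (n01 : i1 ≠ 0) (n02 : i2 ≠ 0) (n0j : j ≠ 0)
    (nie : i ≠ e) (ni1 : i ≠ i1) (ni2 : i ≠ i2) (nij : i ≠ j) (ne1 : e ≠ i1) (ne2 : e ≠ i2)
    (nej : e ≠ j) (n12 : i1 ≠ i2) (n1j : i1 ≠ j) (n2j : i2 ≠ j)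
    (F3 : ∀ a ∈ ({i, e, i1, i2, j} : Set G), ∀ b ∈ ({i, e, i1, i2, j} : Set G),
      ∀ c ∈ ({i, e, i1, i2, j} : Set G), a ≠ b → a + b ≠ c)
    (F2 : ∀ a ∈ ({i, e, i1, i2, j} : Set G), ∀ b ∈ ({i, e, i1, i2, j} : Set G), a ≠ b → a + b ≠ 0)
    (F4 : ∀ a ∈ ({i, e, i1, i2, j} : Set G), ∀ b ∈ ({i, e, i1, i2, j} : Set G),
      ∀ c ∈ ({i, e, i1, i2, j} : Set G), ∀ d ∈ ({i, e, i1, i2, j} : Set G), a ≠ b → c ≠ d →
      a + b = c + d → (a = c ∧ b = d) ∨ (a = d ∧ b = c))
    (E1 : 2 • i1 - 2 • i = i1 + i2) (E2 : 2 • i2 - 2 • i = i1 + i2)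
    (H : (2 • i - 2 • i1 = i + e ∧ 2 • i = 2 • e) ∨ (2 • i - 2 • i1 = i ∧ -(2 • j) = e) ∨
      (2 • i - 2 • i1 = i ∧ -(2 • j) = 0) ∨ (2 • i - 2 • i1 = i - e ∧ -(2 • j) = e)) : False := by
  have hi : i ∈ ({i, e, i1, i2, j} : Set G) := by simp
  have he : e ∈ ({i, e, i1, i2, j} : Set G) := by simp
  have h1 : i1 ∈ ({i, e, i1, i2, j} : Set G) := by simp
  have h2 : i2 ∈ ({i, e, i1, i2, j} : Set G) := by simp
  have hj : j ∈ ({i, e, i1, i2, j} : Set G) := by simp
  have hi2 : i2 = i1 - 2 • i := by
    linear_combination (norm := module) -(1:ℤ) • E1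
  have h4i : 4 • i = 0 := by
    linear_combination (norm := module) -(1:ℤ) • E1 + -(1:ℤ) • E2
  have : Finite G := Nat.finite_of_card_ne_zero (by rw [hcard]; norm_num)
  -- generic facts about an element of order 8
  have gen : ∀ x : G, 4 • x ≠ 0 → 8 • x = 0 → ∀ g g' : G,
      (∃ m < 8, g = m • x) ∨ (∃ m < 8, g' = m • x) ∨ (∃ m < 8, g + g' = m • x) := by
    intro x hx4 hx8 g g'
    have ho : addOrderOf x = 8 := by
      have := addOrderOf_eq_prime_pow (p := 2) (n := 2) (x := x) (by simpa using hx4) (by simpa using hx8)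
      simpa using this
    have hidx : (AddSubgroup.zmultiples x).index = 2 := by
      have := (AddSubgroup.zmultiples x).card_mul_index
      rw [Nat.card_zmultiples, ho, hcard] at this
      omega
    have hmem : ∀ y : G, y ∈ AddSubgroup.zmultiples x → ∃ m < 8, y = m • x := by
      intro y hy
      classical
      rw [mem_zmultiples_iff_mem_range_addOrderOf, mem_image] at hy
      obtain ⟨m, hm, hmy⟩ := hy
      rw [mem_range, ho] at hm
      exact ⟨m, hm, hmy.symm⟩
    by_cases hg : g ∈ AddSubgroup.zmultiples x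
    · exact Or.inl (hmem g hg)
    · by_cases hg' : g' ∈ AddSubgroup.zmultiples x
      · exact Or.inr (Or.inl (hmem g' hg'))
      · refine Or.inr (Or.inr (hmem _ ?_))
        rw [AddSubgroup.add_mem_iff_of_index_two hidx]
        simp [hg, hg']
  -- case `i = 2 x`, `x = i1`
  have casex : 2 • i - 2 • i1 = i → ∀ a ∈ ({i, e, i1, i2, j} : Set G), a ≠ i → a ≠ i1 → a ≠ i2 →
      a ≠ 0 → ¬ ∃ m < 8, a = m • i1 := by
    intro hx a ha n1 n2 n3 n4
    have hii : i = 2 • i1 := by linear_combination (norm := module) hx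
    have h8 : 8 • i1 = 0 := by
      have := h4i; rw [hii] at this; linear_combination (norm := module) this
    rintro ⟨m, hm, hma⟩
    have hi2' : i2 = 5 • i1 := by
      rw [hi2, hii]; linear_combination (norm := module) -(1:ℤ) • h8
    interval_cases m
    · exact n4 (by rw [hma]; simp)
    · exact n2 (by rw [hma]; simp)
    · exact n1 (by rw [hma, hii])
    · exact F3 i hi i1 h1 a ha ni1 (by rw [hma, hii]; module)
    · exact F3 a ha i1 h1 i2 h2 n2 (by rw [hma, hi2']; module)
    · exact n3 (by rw [hma, hi2'])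
    · exact F3 i1 h1 i2 h2 a ha n12 (by rw [hma, hi2']; module)
    · exact F3 i hi i2 h2 a ha ni2 (by rw [hma, hi2', hii]; module)
  have ord1 : 2 • i - 2 • i1 = i → 4 • i1 ≠ 0 ∧ 8 • i1 = 0 := by
    intro hx
    have hii : i = 2 • i1 := by linear_combination (norm := module) hx
    constructor
    · intro h4
      apply n12
      rw [hi2, hii]; linear_combination (norm := module) h4
    · have := h4i; rw [hii] at this; linear_combination (norm := module) this
  rcases H with ⟨hA, hB⟩ | ⟨hA, hB⟩ | ⟨hA, hB⟩ | ⟨hA, hB⟩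
  · -- α
    have h4 : 4 • i1 = 0 := by
      linear_combination (norm := module) -(2:ℤ) • hA + (1:ℤ) • hB
    have hs : i + e = i1 + i2 := by
      rw [← hA, hi2]
      linear_combination (norm := module) h4i - h4
    rcases F4 i hi e he i1 h1 i2 h2 nie n12 hs with ⟨hh, _⟩ | ⟨hh, _⟩
    · exact ni1 hh
    · exact ni2 hh
  · -- β
    obtain ⟨o4, o8⟩ := ord1 hA
    have hbad := casex hA
    rcases gen i1 o4 o8 (-j) (-j) with h | h | h
    · obtain ⟨m, hm, hmj⟩ := h
      have : j = (8 - m) • i1 := by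
        obtain ⟨m', hm'⟩ : ∃ m', 8 = m + m' := ⟨8 - m, by omega⟩
        have e8 : 8 - m = m' := by omega
        rw [e8]
        have : (m + m') • i1 = 0 := by rw [← hm']; exact o8
        rw [add_nsmul] at this
        linear_combination (norm := module) -(1:ℤ) • hmj - this
      rcases Nat.eq_zero_or_pos m with h0 | h0
      · subst h0; apply n0j; rw [this]; simpa using o8
      · exact hbad j hj nij.symm n1j.symm n2j.symm n0j ⟨8 - m, by omega, this⟩
    · obtain ⟨m, hm, hmj⟩ := h
      have : j = (8 - m) • i1 := by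
        obtain ⟨m', hm'⟩ : ∃ m', 8 = m + m' := ⟨8 - m, by omega⟩
        have e8 : 8 - m = m' := by omega
        rw [e8]
        have : (m + m') • i1 = 0 := by rw [← hm']; exact o8
        rw [add_nsmul] at this
        linear_combination (norm := module) -(1:ℤ) • hmj - this
      rcases Nat.eq_zero_or_pos m with h0 | h0
      · subst h0; apply n0j; rw [this]; simpa using o8
      · exact hbad j hj nij.symm n1j.symm n2j.symm n0j ⟨8 - m, by omega, this⟩
    · obtain ⟨m, hm, hmj⟩ := h
      refine hbad e he nie.symm ne1 ne2 n0e ⟨m, hm, ?_⟩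
      rw [← hmj, ← hB]; module
  · -- γ
    obtain ⟨o4, o8⟩ := ord1 hA
    have hbad := casex hA
    have hii : i = 2 • i1 := by linear_combination (norm := module) hA
    have hi2' : i2 = 5 • i1 := by
      rw [hi2, hii]; linear_combination (norm := module) -(1:ℤ) • o8
    rcases gen i1 o4 o8 e j with h | h | h
    · exact hbad e he nie.symm ne1 ne2 n0e h
    · exact hbad j hj nij.symm n1j.symm n2j.symm n0j h
    · obtain ⟨m, hm, hmj⟩ := h
      interval_cases m
      · exact F2 e he j hj nej (by rw [hmj]; simp)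
      · exact F3 e he j hj i1 h1 nej (by rw [hmj]; simp)
      · exact F3 e he j hj i hi nej (by rw [hmj, hii])
      · rcases F4 e he j hj i hi i1 h1 nej ni1 (by rw [hmj, hii]; module) with ⟨hh, _⟩ | ⟨hh, _⟩
        · exact nie hh.symm
        · exact ne1 hh
      · rcases F4 e he i1 h1 j hj i2 h2 ne1 n2j.symm (by
          rw [hi2']; linear_combination (norm := module) hmj + hB) with ⟨hh, _⟩ | ⟨hh, _⟩
        · exact nej hh
        · exact ne2 hh
      · exact F3 e he j hj i2 h2 nej (by rw [hmj, hi2'])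
      · rcases F4 e he j hj i1 h1 i2 h2 nej n12 (by rw [hmj, hi2']; module) with ⟨hh, _⟩ | ⟨hh, _⟩
        · exact ne1 hh
        · exact ne2 hh
      · rcases F4 e he j hj i hi i2 h2 nej ni2 (by rw [hmj, hi2', hii]; module) with ⟨hh, _⟩ | ⟨hh, _⟩
        · exact nie hh.symm
        · exact ne2 hh
  · -- δ
    have hee : e = 2 • i1 - i := by linear_combination (norm := module) hA
    obtain ⟨z, hz⟩ : ∃ z, z = i1 + j := ⟨_, rfl⟩
    have hiz : i = 2 • z := by
      rw [hz]; linear_combination (norm := module) hB + hee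
    have o8 : 8 • z = 0 := by
      have := h4i; rw [hiz] at this; linear_combination (norm := module) this
    have o4 : 4 • z ≠ 0 := by
      intro h4
      apply n12
      rw [hi2, hiz]; linear_combination (norm := module) h4
    have hi2' : i2 = i1 - 4 • z := by rw [hi2, hiz]; module
    have hfin : ∀ m < 8, 2 • i1 ≠ m • z := by
      intro m hm hmz
      have hem : e = m • z - 2 • z := by rw [hee, hiz, hmz]
      interval_cases m
      · exact F2 e he i hi nie.symm (by rw [hem, hiz]; module)
      · rcases F4 e he i hi i1 h1 j hj nie.symm n1j (by rw [hem, ← hz, hiz]; module) with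
          ⟨hh, _⟩ | ⟨hh, _⟩
        · exact ne1 hh
        · exact nej hh
      · exact n0e (by rw [hem]; module)
      · exact F3 i1 h1 j hj e he n1j (by rw [hem, ← hz]; module)
      · exact nie (by rw [hem, hiz]; module)
      · rcases F4 e he i hi j hj i2 h2 nie.symm n2j.symm (by
          rw [hem, hiz, hi2']; linear_combination (norm := module) o8 + hz) with ⟨hh, _⟩ | ⟨hh, _⟩
        · exact nej hh
        · exact ne2 hh
      · exact F3 i1 h1 i2 h2 i hi n12 (by
          rw [hi2', hiz]; linear_combination (norm := module) hmz)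
      · exact F3 j hj i2 h2 e he n2j.symm (by
          rw [hem, hi2']; linear_combination (norm := module) -(1:ℤ) • o8 - hz)
    rcases gen z o4 o8 i1 i1 with h | h | h
    · obtain ⟨m, hm, hmj⟩ := h
      rcases lt_or_ge m 4 with hm4 | hm4
      · exact hfin (2 * m) (by omega) (by rw [hmj, mul_nsmul']; )
      · refine hfin (2 * m - 8) (by omega) ?_
        obtain ⟨m', rfl⟩ : ∃ m', m = m' + 4 := ⟨m - 4, by omega⟩
        have : 2 * (m' + 4) - 8 = 2 * m' := by omega
        rw [this, hmj, add_nsmul, mul_nsmul']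
        linear_combination (norm := module) o8
    · obtain ⟨m, hm, hmj⟩ := h
      rcases lt_or_ge m 4 with hm4 | hm4
      · exact hfin (2 * m) (by omega) (by rw [hmj, mul_nsmul']; )
      · refine hfin (2 * m - 8) (by omega) ?_
        obtain ⟨m', rfl⟩ : ∃ m', m = m' + 4 := ⟨m - 4, by omega⟩
        have : 2 * (m' + 4) - 8 = 2 * m' := by omega
        rw [this, hmj, add_nsmul, mul_nsmul']
        linear_combination (norm := module) o8
    · obtain ⟨m, hm, hmj⟩ := h
      exact hfin m hm (by rw [← hmj]; module)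

end Pool.Agent.R322.PB
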