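import Mathlib
import Pool.Agent.R322.PB.Small

set_option autoImplicit false
set_option linter.unusedSectionVars false

namespace Pool.Agent.R322.PB

open Finset

variable {G : Type*} [AddCommGroup G] [DecidableEq G] {s : ℕ} {A : Finset G}

section facts
variable (h : Perf s A)
include h

theorem F0 (hs : 1 ≤ s) {a : G} (ha : a ∈ A) : a ≠ 0 := by
  intro h0
  have := uniq h (B := {a}) (B' := ∅) (singleton_subset_iff.2 ha) (empty_subset _)
    (by rw [card_singleton]; omega) (by simp) (by simp [h0])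
  exact singleton_ne_empty a this

theorem F2 (hs : 2 ≤ s) {a b : G} (ha : a ∈ A) (hb : b ∈ A) (hab : a ≠ b) : a + b ≠ 0 := by
  intro h0
  have := uniq h (B := {a, b}) (B' := ∅) (insert_subset ha (singleton_subset_iff.2 hb)) (empty_subset _)
    (card_le_two.trans hs) (by simp) (by rw [sum_pair hab, h0]; simp)
  exact insert_ne_empty a {b} this

theorem F3 (hs : 2 ≤ s) {a b c : G} (ha : a ∈ A) (hb : b ∈ A) (hc : c ∈ A) (hab : a ≠ b) :
    a + b ≠ c := by
  intro h0
  have := uniq h (B := {a, b}) (B' := {c}) (insert_subset ha (singleton_subset_iff.2 hb))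
    (singleton_subset_iff.2 hc)
    (card_le_two.trans hs) (by rw [card_singleton]; omega) (by rw [sum_pair hab, h0]; simp)
  have h1 : a ∈ ({c} : Finset G) := by rw [← this]; simp
  have h2 : b ∈ ({c} : Finset G) := by rw [← this]; simp
  rw [mem_singleton] at h1 h2
  exact hab (h1.trans h2.symm)

theorem F4 (hs : 2 ≤ s) {a b c d : G} (ha : a ∈ A) (hb : b ∈ A) (hc : c ∈ A) (hd : d ∈ A)
    (hab : a ≠ b) (hcd : c ≠ d) (he : a + b = c + d) : (a = c ∧ b = d) ∨ (a = d ∧ b = c) := by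
  have := uniq h (B := {a, b}) (B' := {c, d}) (insert_subset ha (singleton_subset_iff.2 hb))
    (insert_subset hc (singleton_subset_iff.2 hd))
    (card_le_two.trans hs) (card_le_two.trans hs) (by rw [sum_pair hab, sum_pair hcd, he])
  have h1 : a ∈ ({c, d} : Finset G) := by rw [← this]; simp
  have h2 : b ∈ ({c, d} : Finset G) := by rw [← this]; simp
  rw [mem_insert, mem_singleton] at h1 h2
  rcases h1 with h1 | h1 <;> rcases h2 with h2 | h2
  · exact absurd (h1.trans h2.symm) hab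
  · exact Or.inl ⟨h1, h2⟩
  · exact Or.inr ⟨h1, h2⟩
  · exact absurd (h1.trans h2.symm) hab

end facts

section
variable (h : Perf s A) (hA : A.card = 2 * s + 1) {j : G} (hj : j ∈ A)
include hA hj

/-- common data in a hypothetical large case -/
theorem S_sub {Q0 L : Finset G} (hQ0 : Q0 ⊆ A.erase j) (hQ0c : Q0.card = s)
    (hLc : s + 1 ≤ L.card) (hW : W h j Q0 = L) {i i' : G} (hi : i ∈ Q0) (hiL : i ∈ L)
    (hi'Q : i' ∉ Q0) (hi'L : i' ∈ L) : rep h (-(2 • j)) ⊆ A.erase j := by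
  have hLA : L ⊆ A.erase j := hW ▸ W_sub h hA hj hQ0 hQ0c
  rw [← swap_small h hA hj hQ0 hQ0c hLc hW hi hiL hi'L hi'Q]
  exact W_sub h hA hj (swap_sub hA hj hQ0 (hLA hi'L)) ((card_swap hi hi'Q).trans hQ0c)

end

theorem step3_two_aux (h : Perf 2 A) (hA : A.card = 2 * 2 + 1) (hcard : Nat.card G = 16) {j : G}
    (hj : j ∈ A) {Q0 L : Finset G} (hQ0 : Q0 ⊆ A.erase j) (hQ0c : Q0.card = 2)
    (hLc : 3 ≤ L.card) (hW : W h j Q0 = L)
    (hP : 2 ≤ ((L \ rep h (-(2 • j))) \ Q0).card)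
    (hP' : ((L \ rep h (-(2 • j))) ∩ Q0).Nonempty) : False := by
  have hLA : L ⊆ A.erase j := hW ▸ W_sub h hA hj hQ0 hQ0c
  obtain ⟨i, hi⟩ := hP'
  rw [mem_inter, mem_sdiff] at hi
  obtain ⟨⟨hiL, hiS⟩, hiQ⟩ := hi
  obtain ⟨i1, h1, i2, h2, n12⟩ := one_lt_card.1 (by omega : 1 < ((L \ rep h (-(2 • j))) \ Q0).card)
  rw [mem_sdiff, mem_sdiff] at h1 h2
  obtain ⟨⟨h1L, h1S⟩, h1Q⟩ := h1
  obtain ⟨⟨h2L, h2S⟩, h2Q⟩ := h2
  have hSA : rep h (-(2 • j)) ⊆ A.erase j := S_sub h hA hj hQ0 hQ0c hLc hW hiQ hiL h1Q h1L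
  have hSsum : ∑ x ∈ rep h (-(2 • j)), x = -(2 • j) := rep_sum h _
  obtain ⟨S, hS⟩ : ∃ S, S = rep h (-(2 • j)) := ⟨_, rfl⟩
  rw [← hS] at hiS h1S h2S hSA hSsum
  have sw : ∀ {Q : Finset G}, Q ⊆ A.erase j → Q.card = 2 → W h j Q = L → ∀ {x x' : G}, x ∈ Q →
      x ∈ L → x' ∈ L → x' ∉ Q → W h j (insert x' (Q.erase x)) = S := by
    intro Q hQ hQc hWQ x x' hx hxL hx'L hx'Q
    rw [hS]
    exact swap_small h hA hj hQ hQc hLc hWQ hx hxL hx'L hx'Q
  -- `Q0 = {i, e}`
  obtain ⟨e, he⟩ : ∃ e, Q0.erase i = {e} := card_eq_one.1 (by rw [card_erase_of_mem hiQ, hQ0c])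
  have heQ : e ∈ Q0 := by
    have : e ∈ Q0.erase i := by rw [he]; simp
    exact mem_of_mem_erase this
  have nie : i ≠ e := by
    have : e ∈ Q0.erase i := by rw [he]; simp
    exact (ne_of_mem_erase this).symm
  have hQ0e : ∀ z, z ∈ Q0 ↔ z = i ∨ z = e := by
    intro z
    constructor
    · intro hz
      by_cases hzi : z = i
      · exact Or.inl hzi
      · right
        have : z ∈ Q0.erase i := mem_erase.2 ⟨hzi, hz⟩
        rw [he] at this; exact mem_singleton.1 this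
    · rintro (rfl | rfl)
      · exact hiQ
      · exact heQ
  -- the complement
  have hR : ({i1, i2} : Finset G) = (A.erase j) \ Q0 := by
    apply eq_of_subset_of_card_le
    · intro z hz
      rw [mem_insert, mem_singleton] at hz
      rcases hz with rfl | rfl
      · exact mem_sdiff.2 ⟨hLA h1L, h1Q⟩
      · exact mem_sdiff.2 ⟨hLA h2L, h2Q⟩
    · rw [Qc hA hj hQ0 hQ0c, card_pair n12]
  have hmem : ∀ z, z ∈ A.erase j → z = i ∨ z = e ∨ z = i1 ∨ z = i2 := by
    intro z hz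
    by_cases hzQ : z ∈ Q0
    · rcases (hQ0e z).1 hzQ with h1 | h1
      · exact Or.inl h1
      · exact Or.inr (Or.inl h1)
    · have : z ∈ ({i1, i2} : Finset G) := by rw [hR]; exact mem_sdiff.2 ⟨hz, hzQ⟩
      rw [mem_insert, mem_singleton] at this
      rcases this with h1 | h1
      · exact Or.inr (Or.inr (Or.inl h1))
      · exact Or.inr (Or.inr (Or.inr h1))
  have hi1e : i1 ≠ e := fun hh => h1Q (hh ▸ heQ)
  have hi2e : i2 ≠ e := fun hh => h2Q (hh ▸ heQ)
  have hi1i : i1 ≠ i := fun hh => h1Q (hh ▸ hiQ)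
  have hi2i : i2 ≠ i := fun hh => h2Q (hh ▸ hiQ)
  have hijA : i ∈ A ∧ i ≠ j := ⟨mem_of_mem_erase (hQ0 hiQ), ne_of_mem_erase (hQ0 hiQ)⟩
  have hejA : e ∈ A ∧ e ≠ j := ⟨mem_of_mem_erase (hQ0 heQ), ne_of_mem_erase (hQ0 heQ)⟩
  have h1jA : i1 ∈ A ∧ i1 ≠ j := ⟨mem_of_mem_erase (hLA h1L), ne_of_mem_erase (hLA h1L)⟩
  have h2jA : i2 ∈ A ∧ i2 ≠ j := ⟨mem_of_mem_erase (hLA h2L), ne_of_mem_erase (hLA h2L)⟩
  have hLQ : L \ Q0 = {i1, i2} := by
    ext z
    rw [mem_sdiff, mem_insert, mem_singleton]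
    constructor
    · rintro ⟨hz, hzQ⟩
      rcases hmem z (hLA hz) with rfl | rfl | hh | hh
      · exact absurd hiQ hzQ
      · exact absurd heQ hzQ
      · exact Or.inl hh
      · exact Or.inr hh
    · rintro (rfl | rfl)
      · exact ⟨h1L, h1Q⟩
      · exact ⟨h2L, h2Q⟩
  have hSmem : ∀ z ∈ S, z = e := by
    intro z hz
    rcases hmem z (hSA hz) with rfl | hh | rfl | rfl
    · exact absurd hz hiS
    · exact hh
    · exact absurd hz h1S
    · exact absurd hz h2S
  have hSQ : S \ Q0 = ∅ := by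
    rw [eq_empty_iff_forall_notMem]
    intro z hz
    rw [mem_sdiff] at hz
    exact hz.2 ((hSmem z hz.1) ▸ heQ)
  have E1 : 2 • i1 - 2 • i = i1 + i2 := by
    have := C3 h hA hj hQ0 hQ0c hiQ (hLA h1L) h1Q hW (sw hQ0 hQ0c hW hiQ hiL h1L h1Q) hiS h1S
    rw [hLQ, hSQ, sum_pair n12, sum_empty, sub_zero] at this
    exact this
  have E2 : 2 • i2 - 2 • i = i1 + i2 := by
    have := C3 h hA hj hQ0 hQ0c hiQ (hLA h2L) h2Q hW (sw hQ0 hQ0c hW hiQ hiL h2L h2Q) hiS h2S
    rw [hLQ, hSQ, sum_pair n12, sum_empty, sub_zero] at this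
    exact this
  -- the swapped relation
  have hQ' : ({i1, i2} : Finset G) ⊆ A.erase j := by rw [hR]; exact sdiff_subset
  have hQ'c : ({i1, i2} : Finset G).card = 2 := card_pair n12
  have hW' : W h j {i1, i2} = L := by rw [hR]; exact (W_swap h hA hj Q0 hQ0).trans hW
  have hi1' : i1 ∈ ({i1, i2} : Finset G) := by simp
  have hiQ' : i ∉ ({i1, i2} : Finset G) := by
    rw [mem_insert, mem_singleton]; rintro (hh | hh)
    · exact hi1i hh.symm
    · exact hi2i hh.symm
  have E3 := C3 h hA hj hQ' hQ'c hi1' (hLA hiL) hiQ' hW' (sw hQ' hQ'c hW' hi1' h1L hiL hiQ') h1S hiS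
  have hSQ' : S \ {i1, i2} = S := by
    rw [Finset.sdiff_eq_self_iff_disjoint, Finset.disjoint_left]
    intro z hz hz2
    rw [hSmem z hz, mem_insert, mem_singleton] at hz2
    rcases hz2 with hh | hh
    · exact hi1e hh.symm
    · exact hi2e hh.symm
  rw [hSQ', hSsum] at E3
  have hLQ'1 : e ∈ L → L \ {i1, i2} = {i, e} := by
    intro heL
    ext z
    rw [mem_sdiff, mem_insert, mem_singleton, mem_insert, mem_singleton]
    constructor
    · rintro ⟨hz, hz2⟩
      rcases hmem z (hLA hz) with hh | hh | hh | hh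
      · exact Or.inl hh
      · exact Or.inr hh
      · exact absurd (Or.inl hh) hz2
      · exact absurd (Or.inr hh) hz2
    · rintro (rfl | rfl)
      · exact ⟨hiL, by rintro (hh | hh); exacts [hi1i hh.symm, hi2i hh.symm]⟩
      · exact ⟨heL, by rintro (hh | hh); exacts [hi1e hh.symm, hi2e hh.symm]⟩
  have hLQ'2 : e ∉ L → L \ {i1, i2} = {i} := by
    intro heL
    ext z
    rw [mem_sdiff, mem_insert, mem_singleton, mem_singleton]
    constructor
    · rintro ⟨hz, hz2⟩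
      rcases hmem z (hLA hz) with hh | hh | hh | hh
      · exact hh
      · exact absurd (hh ▸ hz) heL
      · exact absurd (Or.inl hh) hz2
      · exact absurd (Or.inr hh) hz2
    · rintro rfl
      exact ⟨hiL, by rintro (hh | hh); exacts [hi1i hh.symm, hi2i hh.symm]⟩
  have hS1 : e ∈ S → -(2 • j) = e := by
    intro heS
    have : S = {e} := by
      ext z; rw [mem_singleton]; exact ⟨hSmem z, fun hh => hh ▸ heS⟩
    rw [← hSsum, this, sum_singleton]
  have hS2 : e ∉ S → -(2 • j) = 0 := by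
    intro heS
    have : S = ∅ := by
      rw [eq_empty_iff_forall_notMem]
      intro z hz
      exact heS ((hSmem z hz) ▸ hz)
    rw [← hSsum, this, sum_empty]
  have hmemA : ∀ a ∈ ({i, e, i1, i2, j} : Set G), a ∈ A := by
    intro a ha
    simp only [Set.mem_insert_iff, Set.mem_singleton_iff] at ha
    rcases ha with rfl | rfl | rfl | rfl | rfl
    · exact hijA.1
    · exact hejA.1
    · exact h1jA.1
    · exact h2jA.1
    · exact hj
  refine five hcard i e i1 i2 j (F0 h (by norm_num) hijA.1) (F0 h (by norm_num) hejA.1)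
    (F0 h (by norm_num) h1jA.1) (F0 h (by norm_num) h2jA.1) (F0 h (by norm_num) hj)
    nie hi1i.symm hi2i.symm hijA.2 hi1e.symm hi2e.symm hejA.2 n12 h1jA.2 h2jA.2
    (fun a ha b hb c hc hab => F3 h le_rfl (hmemA a ha) (hmemA b hb) (hmemA c hc) hab)
    (fun a ha b hb hab => F2 h le_rfl (hmemA a ha) (hmemA b hb) hab)
    (fun a ha b hb c hc d hd hab hcd he => F4 h le_rfl (hmemA a ha) (hmemA b hb) (hmemA c hc)
      (hmemA d hd) hab hcd he) E1 E2 ?_
  by_cases heL : e ∈ L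
  · by_cases heS : e ∈ S
    · right; left
      refine ⟨?_, hS1 heS⟩
      rw [E3, hLQ'1 heL, sum_pair nie, hS1 heS]; abel
    · left
      refine ⟨?_, ?_⟩
      · rw [E3, hLQ'1 heL, sum_pair nie, hS2 heS, sub_zero]
      · exact same_left h hA hj hQ0 hQ0c hLc hW hiQ hiL (hS ▸ hiS) heQ heL (hS ▸ heS) h1Q h1L
          (hS ▸ h1S)
  · by_cases heS : e ∈ S
    · right; right; right
      refine ⟨?_, hS1 heS⟩
      rw [E3, hLQ'2 heL, sum_singleton, hS1 heS]
    · right; right; left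
      refine ⟨?_, hS2 heS⟩
      rw [E3, hLQ'2 heL, sum_singleton, hS2 heS, sub_zero]

theorem step3_two (h : Perf 2 A) (hA : A.card = 2 * 2 + 1) (hcard : Nat.card G = 16) {j : G}
    (hj : j ∈ A) {Q0 : Finset G} (hQ0 : Q0 ⊆ A.erase j) (hQ0c : Q0.card = 2) :
    (W h j Q0).card ≤ 2 := by
  by_contra hcon
  push Not at hcon
  obtain ⟨L, hL⟩ : ∃ L, L = W h j Q0 := ⟨_, rfl⟩
  have hLc : 2 + 1 ≤ L.card := by rw [hL]; omega
  obtain ⟨f1, f2, f3⟩ := P_facts h hA hj hQ0 hQ0c hLc hL.symm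
  by_cases hb : 2 ≤ ((L \ rep h (-(2 • j))) \ Q0).card
  · exact step3_two_aux h hA hcard hj hQ0 hQ0c hLc hL.symm hb (card_pos.1 (by omega))
  · have hQ0' : (A.erase j) \ Q0 ⊆ A.erase j := sdiff_subset
    have hW' : W h j ((A.erase j) \ Q0) = L := (W_swap h hA hj Q0 hQ0).trans hL.symm
    have hLA : L ⊆ A.erase j := hL ▸ W_sub h hA hj hQ0 hQ0c
    have e1 : (L \ rep h (-(2 • j))) \ ((A.erase j) \ Q0) = (L \ rep h (-(2 • j))) ∩ Q0 := by
      ext z
      rw [mem_sdiff, mem_inter, mem_sdiff, mem_sdiff]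
      constructor
      · rintro ⟨h1, h2⟩
        refine ⟨h1, ?_⟩
        by_contra hz
        exact h2 ⟨hLA h1.1, hz⟩
      · rintro ⟨h1, h2⟩
        exact ⟨h1, fun h3 => h3.2 h2⟩
    have e2 : (L \ rep h (-(2 • j))) ∩ ((A.erase j) \ Q0) = (L \ rep h (-(2 • j))) \ Q0 := by
      ext z
      rw [mem_sdiff, mem_inter, mem_sdiff, mem_sdiff]
      constructor
      · rintro ⟨h1, h2⟩
        exact ⟨h1, h2.2⟩
      · rintro ⟨h1, h2⟩
        exact ⟨h1, hLA h1.1, h2⟩
    refine step3_two_aux h hA hcard hj hQ0' (Qc hA hj hQ0 hQ0c) hLc hW' ?_ ?_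
    · rw [e1]; omega
    · rw [e2]; exact card_pos.1 (by omega)

theorem step3_one (h : Perf 1 A) (hA : A.card = 2 * 1 + 1) (hcard : Nat.card G = 4) {j : G}
    (hj : j ∈ A) {Q0 : Finset G} (hQ0 : Q0 ⊆ A.erase j) (hQ0c : Q0.card = 1) :
    (W h j Q0).card ≤ 1 := by
  by_contra hcon
  push Not at hcon
  obtain ⟨L, hW⟩ : ∃ L, W h j Q0 = L := ⟨_, rfl⟩
  have hLc : 1 + 1 ≤ L.card := by rw [← hW]; omega
  have hLA : L ⊆ A.erase j := hW ▸ W_sub h hA hj hQ0 hQ0c
  obtain ⟨f1, f2, f3⟩ := P_facts h hA hj hQ0 hQ0c hLc hW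
  obtain ⟨i, hi⟩ := card_pos.1 (by omega : 0 < ((L \ rep h (-(2 • j))) ∩ Q0).card)
  obtain ⟨i1, h1⟩ := card_pos.1 (by omega : 0 < ((L \ rep h (-(2 • j))) \ Q0).card)
  rw [mem_inter, mem_sdiff] at hi
  obtain ⟨⟨hiL, hiS⟩, hiQ⟩ := hi
  rw [mem_sdiff, mem_sdiff] at h1
  obtain ⟨⟨h1L, h1S⟩, h1Q⟩ := h1
  have n1 : i ≠ i1 := fun hh => h1Q (hh ▸ hiQ)
  have hSA : rep h (-(2 • j)) ⊆ A.erase j := S_sub h hA hj hQ0 hQ0c hLc hW hiQ hiL h1Q h1L
  have hAe : ({i, i1} : Finset G) = A.erase j := by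
    apply eq_of_subset_of_card_le
    · intro z hz
      rw [mem_insert, mem_singleton] at hz
      rcases hz with rfl | rfl
      · exact hLA hiL
      · exact hLA h1L
    · rw [card_erase_of_mem hj, hA, card_pair n1]
  have hS0 : rep h (-(2 • j)) = ∅ := by
    rw [eq_empty_iff_forall_notMem]
    intro z hz
    have := hSA hz
    rw [← hAe, mem_insert, mem_singleton] at this
    rcases this with rfl | rfl
    · exact hiS hz
    · exact h1S hz
  have hLe : L = {i, i1} := by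
    apply Subset.antisymm
    · rw [hAe]; exact hLA
    · intro z hz
      rw [mem_insert, mem_singleton] at hz
      rcases hz with rfl | rfl
      · exact hiL
      · exact h1L
  have hLs : i + i1 = 0 := by
    have e1 : ∑ x ∈ L, x = -(2 • j) := hW ▸ W_sum h hA hj hQ0 hQ0c
    have e2 : ∑ x ∈ rep h (-(2 • j)), x = -(2 • j) := rep_sum h _
    rw [hS0, sum_empty] at e2
    rw [← e2, hLe, sum_pair n1] at e1
    exact e1
  have hQe : Q0 = {i} := by
    obtain ⟨w, hw⟩ := card_eq_one.1 hQ0c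
    rw [hw, mem_singleton] at hiQ
    rw [hw, hiQ]
  have E := C3 h hA hj hQ0 hQ0c hiQ (hLA h1L) h1Q hW
    (swap_small h hA hj hQ0 hQ0c hLc hW hiQ hiL h1L h1Q) hiS h1S
  rw [hS0, hLe, hQe] at E
  have e3 : ({i, i1} : Finset G) \ {i} = {i1} := by
    ext z
    rw [mem_sdiff, mem_insert, mem_singleton, mem_singleton]
    constructor
    · rintro ⟨hz | hz, hz2⟩
      · exact absurd hz hz2
      · exact hz
    · rintro rfl
      exact ⟨Or.inr rfl, n1.symm⟩
  rw [e3] at E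
  simp only [sum_singleton, empty_sdiff, sum_empty, sub_zero] at E
  have h4 : 4 • i = 0 := by
    have := card_nsmul_eq_zero' (x := i)
    rwa [hcard] at this
  apply F0 h le_rfl (mem_of_mem_erase (hLA hiL))
  linear_combination (norm := module) h4 - hLs + E

/-- Step 4 -/
theorem step4 (h : Perf s A) (hA : A.card = 2 * s + 1) (hs : 1 ≤ s)
    (hsmall : ∀ j ∈ A, ∀ Q ⊆ A.erase j, Q.card = s → (W h j Q).card ≤ s) :
    (∀ a ∈ A, 2 • a = 0) ∨ ∃ b ∈ A, 2 • b = 0 ∧ ∀ a ∈ A, a ≠ b → 2 • a = b := by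
  have hWS : ∀ j ∈ A, ∀ Q ⊆ A.erase j, Q.card = s → W h j Q = rep h (-(2 • j)) := by
    intro j hj Q hQ hQc
    exact (rep_eq h ((W_sub h hA hj hQ hQc).trans (erase_subset _ _)) (hsmall j hj Q hQ hQc)
      (W_sum h hA hj hQ hQc)).symm
  have hSsub : ∀ j ∈ A, rep h (-(2 • j)) ⊆ A.erase j := by
    intro j hj
    obtain ⟨Q, hQ, hQc⟩ := exists_subset_card_eq (s := A.erase j) (n := s)
      (by rw [card_erase_of_mem hj]; omega)
    rw [← hWS j hj Q hQ hQc]
    exact W_sub h hA hj hQ hQc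
  have hM : ∀ Y ⊆ A, Y.card = s + 1 → ∀ j ∈ Y, M h Y = rep h (-(2 • j)) \ Y := by
    intro Y hY hYc j hjY
    have hj := hY hjY
    have hQ : Y.erase j ⊆ A.erase j := erase_subset_erase _ hY
    have hQc : (Y.erase j).card = s := by rw [card_erase_of_mem hjY]; omega
    have e1 := M_eq_W_sdiff h hA hj hQ hQc
    rw [insert_erase hjY, hWS j hj _ hQ hQc] at e1
    rw [e1]
    ext z
    rw [mem_sdiff, mem_sdiff, mem_erase]
    constructor
    · rintro ⟨hz, hz2⟩
      exact ⟨hz, fun hzY => hz2 ⟨ne_of_mem_erase (hSsub j hj hz), hzY⟩⟩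
    · rintro ⟨hz, hz2⟩
      exact ⟨hz, fun hzY => hz2 hzY.2⟩
  have ha : ∀ x j1, j1 ∈ A → x ∈ rep h (-(2 • j1)) → ∀ j ∈ A, j ≠ x → x ∈ rep h (-(2 • j)) := by
    intro x j1 hj1 hx j hj hjx
    have hxA : x ∈ A := rep_sub h _ hx
    have hxj1 : x ≠ j1 := ne_of_mem_erase (hSsub j1 hj1 hx)
    obtain ⟨Y, hsub, hsub2, hc⟩ := Finset.exists_subsuperset_card_eq
      (s := ({j1, j} : Finset G)) (t := A.erase x) (n := s + 1) (by
        intro z hz
        rw [mem_insert, mem_singleton] at hz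
        rcases hz with rfl | rfl
        · exact mem_erase.2 ⟨hxj1.symm, hj1⟩
        · exact mem_erase.2 ⟨hjx, hj⟩) (card_le_two.trans (by omega))
      (by rw [card_erase_of_mem hxA]; omega)
    have hYA : Y ⊆ A := hsub2.trans (erase_subset _ _)
    have hxY : x ∉ Y := fun hh => ne_of_mem_erase (hsub2 hh) rfl
    have h1 := hM Y hYA hc j1 (hsub (by simp))
    have h2 := hM Y hYA hc j (hsub (by simp))
    have h3 : x ∈ rep h (-(2 • j)) \ Y := by
      rw [← h2, h1]; exact mem_sdiff.2 ⟨hx, hxY⟩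
    exact (mem_sdiff.1 h3).1
  have hb : ∀ x y j1 j2, j1 ∈ A → j2 ∈ A → x ∈ rep h (-(2 • j1)) → y ∈ rep h (-(2 • j2)) → x = y := by
    intro x y j1 j2 hj1 hj2 hx hy
    by_contra hxy
    have hxA : x ∈ A := rep_sub h _ hx
    have hyA : y ∈ A := rep_sub h _ hy
    have hxSy := ha x j1 hj1 hx y hyA (Ne.symm hxy)
    have hySx := ha y j2 hj2 hy x hxA hxy
    obtain ⟨Y, hsub, hsub2, hc⟩ := Finset.exists_subsuperset_card_eq
      (s := ({y} : Finset G)) (t := A.erase x) (n := s + 1) (by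
        intro z hz
        rw [mem_singleton] at hz
        subst hz
        exact mem_erase.2 ⟨Ne.symm hxy, hyA⟩) (by rw [card_singleton]; omega)
      (by rw [card_erase_of_mem hxA]; omega)
    have hYA : Y ⊆ A := hsub2.trans (erase_subset _ _)
    have hxY : x ∉ Y := fun hh => ne_of_mem_erase (hsub2 hh) rfl
    have hyY : y ∈ Y := hsub (by simp)
    have hY2A : insert x (Y.erase y) ⊆ A := by
      intro z hz
      rcases mem_insert.1 hz with rfl | hz
      · exact hxA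
      · exact hYA (mem_of_mem_erase hz)
    refine L1 h hA hYA hc (j := y) (j' := x) hyY ?_ ?_
    · rw [hM Y hYA hc y hyY]; exact mem_sdiff.2 ⟨hxSy, hxY⟩
    · rw [hM _ hY2A ((card_swap hyY hxY).trans hc) x (mem_insert_self _ _)]
      refine mem_sdiff.2 ⟨hySx, ?_⟩
      rw [mem_insert, mem_erase]
      rintro (hh | hh)
      · exact hxy hh.symm
      · exact hh.1 rfl
  by_cases hex : ∃ b j1, j1 ∈ A ∧ b ∈ rep h (-(2 • j1))
  · obtain ⟨b, j1, hj1, hbj⟩ := hex
    right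
    refine ⟨b, rep_sub h _ hbj, ?_, ?_⟩
    · have hbA : b ∈ A := rep_sub h _ hbj
      have : rep h (-(2 • b)) = ∅ := by
        rw [eq_empty_iff_forall_notMem]
        intro z hz
        have h1 := hb z b b j1 hbA hj1 hz hbj
        exact ne_of_mem_erase (hSsub b hbA hz) h1
      have h2 := rep_sum h (-(2 • b))
      rw [this, sum_empty] at h2
      exact neg_eq_zero.1 h2.symm
    · intro a haA hab
      have hbA : b ∈ A := rep_sub h _ hbj
      have h1 := ha b j1 hj1 hbj a haA hab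
      have : rep h (-(2 • a)) = {b} := by
        ext z
        rw [mem_singleton]
        exact ⟨fun hz => hb z b a j1 haA hj1 hz hbj, fun hz => hz ▸ h1⟩
      have h2 := rep_sum h (-(2 • a))
      rw [this, sum_singleton] at h2
      have hbb : rep h (-(2 • b)) = ∅ := by
        rw [eq_empty_iff_forall_notMem]
        intro z hz
        have h1 := hb z b b j1 hbA hj1 hz hbj
        exact ne_of_mem_erase (hSsub b hbA hz) h1
      have h3 := rep_sum h (-(2 • b))
      rw [hbb, sum_empty] at h3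
      have h4 : 2 • b = 0 := neg_eq_zero.1 h3.symm
      linear_combination (norm := module) h2 - h4
  · left
    push Not at hex
    intro a haA
    have : rep h (-(2 • a)) = ∅ := by
      rw [eq_empty_iff_forall_notMem]
      intro z
      exact hex z a haA
    have h2 := rep_sum h (-(2 • a))
    rw [this, sum_empty] at h2
    exact neg_eq_zero.1 h2.symm

theorem classify (h : Perf s A) (hA : A.card = 2 * s + 1) (hs : 1 ≤ s)
    (hcard : Nat.card G = 2 ^ (2 * s)) :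
    (∀ a ∈ A, 2 • a = 0) ∨ ∃ b ∈ A, 2 • b = 0 ∧ ∀ a ∈ A, a ≠ b → 2 • a = b := by
  apply step4 h hA hs
  intro j hj Q hQ hQc
  rcases Nat.lt_or_ge s 3 with hs3 | hs3
  · interval_cases s
    · exact step3_one h hA (by rw [hcard]; norm_num) hj hQ hQc
    · exact step3_two h hA (by rw [hcard]; norm_num) hj hQ hQc
  · exact step3 h hA hj hs3 hQ hQc

end Pool.Agent.R322.PB
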